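import Pool.Agent.ZPU.StmtsC

/-!
Squad ZPU, row AF1.
-/

set_option autoImplicit false

namespace Pool.Agent.ZPU.H31

open Polynomial Pool.Agent.ZPU

/-- Two polynomials over `k`, the second not zero, which are not coprime, have a common root in
the algebraic closure. -/
theorem exists_common_root {k : Type} [Field k] {u h : k[X]} (hh : h ≠ 0)
    (hn : ¬ IsCoprime u h) :
    ∃ t : AlgebraicClosure k, aeval t u = 0 ∧ aeval t h = 0 := by
  classical
  set d := EuclideanDomain.gcd u h with hd
  have hdu : ¬ IsUnit d := fun hu => hn ((EuclideanDomain.gcd_isUnit_iff).1 hu)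
  have hd0 : d ≠ 0 := by
    intro h0
    have : d ∣ h := EuclideanDomain.gcd_dvd_right u h
    rw [h0] at this
    exact hh (zero_dvd_iff.1 this)
  have hdeg : d.degree ≠ 0 := by
    intro h0
    exact hdu (Polynomial.isUnit_iff_degree_eq_zero.2 h0)
  obtain ⟨t, ht⟩ := IsAlgClosed.exists_aeval_eq_zero (AlgebraicClosure k) d hdeg
  refine ⟨t, ?_, ?_⟩
  · obtain ⟨c, hc⟩ := EuclideanDomain.gcd_dvd_left u h
    rw [hc, map_mul, ← hd, ht, zero_mul]
  · obtain ⟨c, hc⟩ := EuclideanDomain.gcd_dvd_right u h
    rw [hc, map_mul, ← hd, ht, zero_mul]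

/-- The value `a` is attached to a root of `h` or to infinity. -/
def At {k : Type} [Field k] (N M : ℕ) (f g h : k[X]) (a : k) :
    Option (AlgebraicClosure k) → Prop
  | some t => aeval t (f + C a * g) = 0 ∧ aeval t h = 0
  | none => (f + C a * g).coeff N = 0 ∧ h.coeff M = 0

/-- Row AF1. -/
theorem af1 : AF1Stmt := by
  classical
  intro k _ N M f g h hN _ _ hh hgh
  unfold NC at hgh
  push Not at hgh
  obtain ⟨hco, hinf⟩ := hgh
  have h0 : h ≠ 0 := by
    intro h0
    rw [h0, isCoprime_zero_right] at hco
    have hg := Polynomial.natDegree_eq_zero_of_isUnit hco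
    refine hinf ?_ ?_
    · exact Polynomial.coeff_eq_zero_of_natDegree_lt (by omega)
    · rw [h0, coeff_zero]
  have key : ∀ a ∈ {a : k | NC N M (f + C a * g) h},
      ∃ o : Option (AlgebraicClosure k),
        o ∈ Finset.insertNone (h.aroots (AlgebraicClosure k)).toFinset ∧ At N M f g h a o := by
    intro a ha
    rcases ha with ha | ha
    · obtain ⟨t, h1, h2⟩ := exists_common_root h0 ha
      refine ⟨some t, ?_, h1, h2⟩
      rw [Finset.some_mem_insertNone, Multiset.mem_toFinset, mem_aroots]
      exact ⟨h0, h2⟩
    · exact ⟨none, Finset.none_mem_insertNone, ha⟩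
  choose! φ hφ using key
  have hinj : Set.InjOn φ {a : k | NC N M (f + C a * g) h} := by
    intro a ha b hb hab
    have h1 := (hφ a ha).2
    have h2 := (hφ b hb).2
    rw [← hab] at h2
    cases ho : φ a with
    | none =>
      rw [ho] at h1 h2
      obtain ⟨e1, e3⟩ := h1
      obtain ⟨e2, -⟩ := h2
      rw [coeff_add, coeff_C_mul] at e1 e2
      have hg : g.coeff N ≠ 0 := fun hg => hinf hg e3
      have e : a * g.coeff N = b * g.coeff N := by
        linear_combination e1 - e2
      exact mul_right_cancel₀ hg e
    | some t =>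
      rw [ho] at h1 h2
      obtain ⟨e1, e3⟩ := h1
      obtain ⟨e2, -⟩ := h2
      rw [map_add, map_mul, aeval_C] at e1 e2
      have hg : aeval t g ≠ 0 := by
        intro hg
        obtain ⟨u, v, huv⟩ := hco
        have := congrArg (aeval t) huv
        rw [map_add, map_mul, map_mul, hg, e3, mul_zero, mul_zero, add_zero, map_one] at this
        exact zero_ne_one this
      have e : algebraMap k (AlgebraicClosure k) a * aeval t g =
          algebraMap k (AlgebraicClosure k) b * aeval t g := by
        linear_combination e1 - e2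
      exact (algebraMap k (AlgebraicClosure k)).injective (mul_right_cancel₀ hg e)
  have hmaps : Set.MapsTo φ {a : k | NC N M (f + C a * g) h}
      (Finset.insertNone (h.aroots (AlgebraicClosure k)).toFinset : Finset _) :=
    fun a ha => (hφ a ha).1
  refine ⟨Set.Finite.of_injOn hmaps hinj (Finset.finite_toSet _), ?_⟩
  calc _ ≤ Set.ncard ((Finset.insertNone (h.aroots (AlgebraicClosure k)).toFinset :
        Finset (Option (AlgebraicClosure k))) : Set (Option (AlgebraicClosure k))) :=
        Set.ncard_le_ncard_of_injOn φ hmaps hinj (Finset.finite_toSet _)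
    _ = (h.aroots (AlgebraicClosure k)).toFinset.card + 1 := by
        rw [Set.ncard_coe_finset, Finset.card_insertNone]
    _ ≤ M + 1 := by
        have h1 : (h.aroots (AlgebraicClosure k)).toFinset.card ≤
            (h.aroots (AlgebraicClosure k)).card := Multiset.toFinset_card_le _
        have h2 : (h.aroots (AlgebraicClosure k)).card ≤
            (h.map (algebraMap k (AlgebraicClosure k))).natDegree := Polynomial.card_roots' _
        have h3 : (h.map (algebraMap k (AlgebraicClosure k))).natDegree = h.natDegree :=
          Polynomial.natDegree_map _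
        omega

end Pool.Agent.ZPU.H31
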